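import Pool.Agent.H94.S36.MFA

set_option autoImplicit false

open Complex Polynomial

namespace Pool.Agent.H32.S36

theorem hkm94_prod {ι : Type} [Fintype ι] (s : Equiv.Perm ι) (a b : ι → ℂ) (J : ℂ)
    (n : ℕ) (hn : Fintype.card ι = n) (he : Even n)
    (h : ∀ i, a i = -J⁻¹ * b (s i)) : ∏ i, a i = J ^ (-(n : ℤ)) * ∏ i, b i := by
  rw [Finset.prod_congr rfl (fun i _ => h i), Finset.prod_mul_distrib, Equiv.prod_comp s b,
    Finset.prod_const, Finset.card_univ, hn, neg_pow, he.neg_one_pow, one_mul, zpow_neg,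
    zpow_natCast, inv_pow]

theorem m_HKM (hHKP : T_HKP) : T_HKM := by
  intro h hh p hp hp2 hp5
  obtain ⟨hd, s0, s10, s5, hs⟩ := hHKP h hh p hp2 hp5
  have hcard : Fintype.card (Option (ZMod p)) = p + 1 := by
    rw [Fintype.card_option, ZMod.card]
  have heven : Even (p + 1) := by
    have := hp.out.odd_of_ne_two hp2
    exact this.add_one
  constructor
  · refine ⟨fun τ hτ => ?_, fun τ hτ => ?_, fun τ hτ => ?_, fun τ hτ => ?_⟩
    · exact DifferentiableAt.fun_sum (fun i _ => hd i τ hτ)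
    · rw [Finset.sum_congr rfl (fun i _ => (hs τ hτ i).1)]
      exact Equiv.sum_comp s0 (fun i => hk p h i τ)
    · rw [Finset.sum_congr rfl (fun i _ => (hs τ hτ i).2.1), ← Finset.mul_sum,
        Equiv.sum_comp s10 (fun i => hk p h i τ), zpow_neg_one]
      ring
    · rw [Finset.sum_congr rfl (fun i _ => (hs τ hτ i).2.2), ← Finset.mul_sum,
        Equiv.sum_comp s5 (fun i => hk p h i τ), zpow_neg_one]
      ring
  · intro l
    have e : (-((p : ℤ) + 1)) = -((p + 1 : ℕ) : ℤ) := by push_cast; ring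
    refine ⟨fun τ hτ => ?_, fun τ hτ => ?_, fun τ hτ => ?_, fun τ hτ => ?_⟩
    · refine DifferentiableAt.fun_finsetProd (fun i _ => ?_)
      exact ((differentiableAt_const l).mul (hh.hol τ hτ)).sub (hd i τ hτ)
    · rw [hh.per τ hτ, Finset.prod_congr rfl (fun i _ => by rw [(hs τ hτ i).1])]
      exact Equiv.prod_comp s0 (fun i => l * h τ - hk p h i τ)
    · rw [one_mul, e]
      refine hkm94_prod s10 _ (fun i => l * h τ - hk p h i τ) (10 * τ ^ 2) (p + 1)
        hcard heven (fun i => ?_)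
      rw [hh.w10 τ hτ, (hs τ hτ i).2.1, zpow_neg_one]
      ring
    · rw [one_mul, e]
      refine hkm94_prod s5 _ (fun i => l * h τ - hk p h i τ)
        (5 * (2 * τ - 1) ^ 2) (p + 1) hcard heven (fun i => ?_)
      rw [hh.w5 τ hτ, (hs τ hτ i).2.2, zpow_neg_one]
      ring

end Pool.Agent.H32.S36
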