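import Pool.Agent.H94.S36.MFA

set_option autoImplicit false

open Complex Polynomial

namespace Pool.Agent.H32.S36

theorem hks94_sum (p : ℕ) [NeZero p] (f : ℕ → ℂ) :
    ∑ j : ZMod p, f j.val = ∑ j ∈ Finset.range p, f j := by
  refine Finset.sum_nbij' (fun j => j.val) (fun n => (n : ZMod p)) ?_ ?_ ?_ ?_ ?_
  · intro j _
    simpa using ZMod.val_lt j
  · intros; simp
  · intro j _; simp
  · intro n hn
    exact ZMod.val_cast_of_lt (by simpa using hn)
  · intros; rfl

theorem hks94_root (p : ℕ) (hp : 0 < p) (n : ℤ) :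
    ∑ j ∈ Finset.range p, (Complex.exp (2 * Real.pi * Complex.I / p) ^ n) ^ j =
      if (p : ℤ) ∣ n then (p : ℂ) else 0 := by
  have hz := Complex.isPrimitiveRoot_exp p hp.ne'
  set ζ := Complex.exp (2 * Real.pi * Complex.I / p) with hζ
  split_ifs with h
  · have h1 : ζ ^ n = 1 := (hz.zpow_eq_one_iff_dvd n).2 h
    rw [h1]
    simp
  · have h1 : ζ ^ n ≠ 1 := fun h2 => h ((hz.zpow_eq_one_iff_dvd n).1 h2)
    rw [geom_sum_eq h1]
    have h2 : (ζ ^ n) ^ p = 1 := by
      rw [← zpow_natCast, ← zpow_mul, mul_comm, zpow_mul, zpow_natCast, hz.pow_eq_one, one_zpow]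
    rw [h2, sub_self, zero_div]

theorem hks94_qq (p : ℕ) (hp : 0 < p) (τ : ℂ) (j : ℕ) :
    qq ((τ + j) / p) = qq (τ / p) * Complex.exp (2 * Real.pi * Complex.I / p) ^ j := by
  have hp' : (p : ℂ) ≠ 0 := by exact_mod_cast hp.ne'
  unfold qq
  rw [← Complex.exp_nat_mul, ← Complex.exp_add]
  congr 1
  field_simp

theorem hks94_qqp (p : ℕ) (hp : 0 < p) (τ : ℂ) : qq (τ / p) ^ p = qq τ := by
  have hp' : (p : ℂ) ≠ 0 := by exact_mod_cast hp.ne'
  unfold qq
  rw [← Complex.exp_nat_mul]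
  congr 1
  field_simp

theorem m_HKS (hHLV : T_HLV) : T_HKS := by
  intro h hz hh hlow p hp
  have hp0 : 0 < p := hp.out.pos
  have hp0' : (p : ℤ) ≠ 0 := by exact_mod_cast hp0.ne'
  have hpc : (p : ℂ) ≠ 0 := by exact_mod_cast hp0.ne'
  have hb : BddBelow (Function.support (fun n : ℤ => hz.coeff (p * n))) := by
    refine ⟨-1, fun n hn => ?_⟩
    by_contra hc
    push Not at hc
    refine hn (hlow _ ?_)
    have h2 : (2 : ℤ) ≤ p := by exact_mod_cast hp.out.two_le
    nlinarith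
  refine ⟨HahnSeries.ofSuppBddBelow _ hb, fun n => rfl, ?_⟩
  set u : LaurentSeries ℤ := HahnSeries.ofSuppBddBelow _ hb with hu
  have huc : ∀ n, u.coeff n = hz.coeff (p * n) := fun n => rfl
  have h1 : HL (fun τ => ∑ j : ZMod p, hk p h (some j) τ) (zc (((p : ℤ) ^ 3 : ℤ) * u)) := by
    intro τ hτ
    have him : ∀ j : ZMod p, 0 < ((τ + (j.val : ℂ)) / p).im := by
      intro j
      have e : (τ + (j.val : ℂ)) / p = (((1 : ℝ) / p : ℝ) : ℂ) * (τ + (j.val : ℂ)) := by
        push_cast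
        ring
      rw [e, Complex.im_ofReal_mul]
      have h0 : (0 : ℝ) < 1 / p := by positivity
      have h1 : (τ + (j.val : ℂ)).im = τ.im := by
        rw [Complex.add_im, Complex.natCast_im, add_zero]
      rw [h1]
      positivity
    have h2 : ∀ j : ZMod p, HasSum (fun n : ℤ => (p : ℂ) ^ 2 *
        ((zc hz).coeff n * qq ((τ + (j.val : ℂ)) / p) ^ n)) (hk p h (some j) τ) := fun j =>
      (hh _ (him j)).mul_left _
    have h3 := hasSum_sum (s := Finset.univ) (fun j _ => h2 j)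
    have h4 : ∀ n : ℤ, ∑ j : ZMod p, (p : ℂ) ^ 2 *
        ((zc hz).coeff n * qq ((τ + (j.val : ℂ)) / p) ^ n) =
        if (p : ℤ) ∣ n then (p : ℂ) ^ 3 * (zc hz).coeff n * qq (τ / p) ^ n else 0 := by
      intro n
      have e1 : ∀ j : ZMod p, (p : ℂ) ^ 2 *
          ((zc hz).coeff n * qq ((τ + (j.val : ℂ)) / p) ^ n) =
          ((p : ℂ) ^ 2 * (zc hz).coeff n * qq (τ / p) ^ n) *
            (Complex.exp (2 * Real.pi * Complex.I / p) ^ n) ^ j.val := by
        intro j
        rw [hks94_qq p hp0, mul_zpow]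
        have e2 : (Complex.exp (2 * Real.pi * Complex.I / p) ^ j.val) ^ n =
            (Complex.exp (2 * Real.pi * Complex.I / p) ^ n) ^ j.val := by
          rw [← zpow_natCast, ← zpow_natCast, ← zpow_mul, ← zpow_mul, mul_comm n]
        rw [e2]
        ring
      rw [Finset.sum_congr rfl (fun j _ => e1 j), ← Finset.mul_sum,
        hks94_sum p (fun k => (Complex.exp (2 * Real.pi * Complex.I / p) ^ n) ^ k),
        hks94_root p hp0]
      split_ifs
      · ring
      · ring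
    simp only [h4] at h3
    have hinj : Function.Injective (fun k : ℤ => (p : ℤ) * k) := by
      intro a b hab
      exact mul_left_cancel₀ hp0' hab
    have h5 := (hinj.hasSum_iff (f := fun n : ℤ =>
      if (p : ℤ) ∣ n then (p : ℂ) ^ 3 * (zc hz).coeff n * qq (τ / p) ^ n else 0) (fun n hn => by
        rw [if_neg]
        rintro ⟨k, hk⟩
        exact hn ⟨k, hk.symm⟩)).2 h3
    have h6 : (fun n : ℤ => (zc (((p : ℤ) ^ 3 : ℤ) * u)).coeff n * qq τ ^ n) =
        ((fun n : ℤ => if (p : ℤ) ∣ n then (p : ℂ) ^ 3 * (zc hz).coeff n * qq (τ / p) ^ n else 0)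
          ∘ fun k : ℤ => (p : ℤ) * k) := by
      funext k
      simp only [Function.comp, dvd_mul_right, if_true]
      rw [zc_coeff, intCast_mul_coeff, huc, zc_coeff, zpow_mul, zpow_natCast, hks94_qqp p hp0]
      push_cast
      ring
    rw [h6]
    exact h5
  have h2 := hHLV h (zc hz) p hp0 hh
  have h3 := h2.add h1
  rw [← zc_VV, ← zc_add] at h3
  refine h3.congr (fun τ _ => ?_)
  rw [Fintype.sum_option]
  rfl

end Pool.Agent.H32.S36
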