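import Pool.Agent.H94.S36.MFA

set_option autoImplicit false

open Complex Polynomial

namespace Pool.Agent.H32.S36

theorem HL94.aeval (hHLM : T_HLM) {x : ℂ → ℂ} {xz : LaurentSeries ℤ} (hx : HL x (zc xz))
    (Q : Polynomial ℤ) : HL (fun τ => Polynomial.aeval (x τ) Q) (zc (Polynomial.aeval xz Q)) := by
  induction Q using Polynomial.induction_on' with
  | add p q hp hq =>
    have h := hp.add hq
    simp only [map_add, zc_add]
    exact h
  | monomial n a =>
    have h1 : HL (fun τ => (a : ℂ) * x τ ^ n) (HahnSeries.C (a : ℂ) * zc xz ^ n) :=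
      HL.smul (a : ℂ) (HL94.pow hHLM hx n)
    have e : zc (Polynomial.aeval xz (Polynomial.monomial n a)) = HahnSeries.C (a : ℂ) * zc xz ^ n := by
      rw [Polynomial.aeval_monomial, zc_mul, zc_pow]
      congr 1
      have : (algebraMap ℤ (LaurentSeries ℤ)) a = (a : LaurentSeries ℤ) := by simp
      rw [this, zc_intCast]
      simp
    rw [e]
    refine h1.congr (fun τ _ => ?_)
    simp [Polynomial.aeval_monomial]

theorem m_HP (hHKM : T_HKM) (hHKS : T_HKS) (hPOL2 : T_POL2) (hHLU : T_HLU) (hHLM : T_HLM) :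
    T_HP := by
  intro x h D xz hz dz pk p hp hp2 hp5
  obtain ⟨u, hu, hS⟩ := hHKS h hz pk.lh pk.hlow p
  obtain ⟨hM, -⟩ := hHKM h pk.mh p hp2 hp5
  obtain ⟨P, hPA, hP⟩ := hPOL2 x h D xz hz dz pk (Int.castAddHom ℂ).range _ _ hM hS
    (fun n _ => ⟨_, (zc_coeff _ n).symm⟩)
  have hl : P ∈ Polynomial.lifts (Int.castRingHom ℂ) := by
    rw [Polynomial.lifts_iff_coeff_lifts]
    intro n
    obtain ⟨z, hz⟩ := hPA n
    exact ⟨z, hz⟩
  obtain ⟨Q, hQ⟩ := (Polynomial.mem_lifts P).1 hl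
  have hev : ∀ τ : ℂ, 0 < τ.im → ∑ i, hk p h i τ = Polynomial.aeval (x τ) Q * h τ := by
    intro τ hτ
    have := hP τ hτ
    rw [this, ← hQ, Polynomial.eval_map]
    rfl
  have hA : HL (fun τ => Polynomial.aeval (x τ) Q * h τ) (zc (Polynomial.aeval xz Q) * zc hz) :=
    hHLM _ _ _ _ (HL94.aeval hHLM pk.lx Q) pk.lh
  have hB := hS.congr hev
  have hC := hHLU _ _ _ hA hB
  rw [← zc_mul] at hC
  refine ⟨Q, u, fun n hn => ?_, zc_injective hC, hev⟩
  rw [hu n]
  refine pk.hlow _ ?_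
  have h2 : (2 : ℤ) ≤ p := by exact_mod_cast hp.out.two_le
  nlinarith

end Pool.Agent.H32.S36
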