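import Pool.Agent.H32.S36.Targets

set_option autoImplicit false

open Complex Polynomial

namespace Pool.Agent.H32.S36

/-! closure properties of `MF` -/

theorem mf94_ne1 (τ : ℂ) (h : 0 < τ.im) : (10 * τ ^ 2 : ℂ) ≠ 0 := by
  have h0 : τ ≠ 0 := by
    rintro rfl
    simp at h
  exact mul_ne_zero (by norm_num) (pow_ne_zero 2 h0)

theorem mf94_ne2 (τ : ℂ) (h : 0 < τ.im) : (5 * (2 * τ - 1) ^ 2 : ℂ) ≠ 0 := by
  have h0 : (2 * τ - 1 : ℂ) ≠ 0 := by
    intro h1
    have := congrArg Complex.im h1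
    simp at this
    exact h.ne' this
  exact mul_ne_zero (by norm_num) (pow_ne_zero 2 h0)

theorem MF94.const (c : ℂ) : MF 1 0 (fun _ => c) where
  hol := fun _ _ => differentiableAt_const c
  per := fun _ _ => rfl
  w10 := fun τ h => by simp
  w5 := fun τ h => by simp

theorem MF94.mul {s s' : ℂ} {m m' : ℤ} {F G : ℂ → ℂ} (hF : MF s m F) (hG : MF s' m' G) :
    MF (s * s') (m + m') (fun τ => F τ * G τ) where
  hol := fun τ h => (hF.hol τ h).mul (hG.hol τ h)
  per := fun τ h => by
    rw [hF.per τ h, hG.per τ h]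
  w10 := fun τ h => by
    rw [hF.w10 τ h, hG.w10 τ h, zpow_add₀ (mf94_ne1 τ h)]
    ring
  w5 := fun τ h => by
    rw [hF.w5 τ h, hG.w5 τ h, zpow_add₀ (mf94_ne2 τ h)]
    ring

theorem MF94.sub {s : ℂ} {m : ℤ} {F G : ℂ → ℂ} (hF : MF s m F) (hG : MF s m G) :
    MF s m (fun τ => F τ - G τ) where
  hol := fun τ h => (hF.hol τ h).sub (hG.hol τ h)
  per := fun τ h => by
    rw [hF.per τ h, hG.per τ h]
  w10 := fun τ h => by
    rw [hF.w10 τ h, hG.w10 τ h]
    ring
  w5 := fun τ h => by
    rw [hF.w5 τ h, hG.w5 τ h]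
    ring

theorem MF94.smul {s : ℂ} {m : ℤ} {F : ℂ → ℂ} (c : ℂ) (hF : MF s m F) :
    MF s m (fun τ => c * F τ) where
  hol := fun τ h => (differentiableAt_const c).mul (hF.hol τ h)
  per := fun τ h => by
    rw [hF.per τ h]
  w10 := fun τ h => by
    rw [hF.w10 τ h]
    ring
  w5 := fun τ h => by
    rw [hF.w5 τ h]
    ring

theorem MF94.pow1 {F : ℂ → ℂ} (hF : MF 1 0 F) (n : ℕ) :
    MF 1 0 (fun τ => F τ ^ n) := by
  induction n with
  | zero => simpa using MF94.const 1
  | succ k ih =>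
    have h := MF94.mul ih hF
    simpa [pow_succ] using h

theorem HL94.pow (hHLM : T_HLM) {F : ℂ → ℂ} {f : LaurentSeries ℂ} (h : HL F f) (n : ℕ) :
    HL (fun τ => F τ ^ n) (f ^ n) := by
  induction n with
  | zero =>
    have h0 := HL.const 1
    simpa using h0
  | succ k ih =>
    have h1 := hHLM _ _ _ _ ih h
    simpa [pow_succ] using h1

theorem LS94_bound (f : LaurentSeries ℂ) : ∃ N : ℕ, ∀ n : ℤ, n < -(N : ℤ) → f.coeff n = 0 := by
  refine ⟨f.order.natAbs, fun n hn => HahnSeries.coeff_eq_zero_of_lt_order ?_⟩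
  omega

theorem LS94_low {R : Type} [CommRing R] {a b : ℤ} {f g : LaurentSeries R}
    (hf : ∀ n : ℤ, n < a → f.coeff n = 0) (hg : ∀ n : ℤ, n < b → g.coeff n = 0) :
    (∀ n : ℤ, n < a + b → (f * g).coeff n = 0) ∧
      (f * g).coeff (a + b) = f.coeff a * g.coeff b := by
  constructor
  · intro n hn
    rw [HahnSeries.coeff_mul]
    refine Finset.sum_eq_zero (fun ij hij => ?_)
    simp only [Finset.mem_antidiagonal, HahnSeries.mem_support] at hij
    obtain ⟨h1, h2, h3⟩ := hij
    by_cases ha : ij.1 < a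
    · exact absurd (hf _ ha) h1
    · exact absurd (hg _ (by omega)) h2
  · rw [HahnSeries.coeff_mul]
    have : ∀ ij ∈ Finset.antidiagonal f.isPWO_support g.isPWO_support (a + b), ij = (a, b) := by
      intro ij hij
      simp only [Finset.mem_antidiagonal, HahnSeries.mem_support] at hij
      obtain ⟨h1, h2, h3⟩ := hij
      have ha : ¬ ij.1 < a := fun h => h1 (hf _ h)
      have hb : ¬ ij.2 < b := fun h => h2 (hg _ h)
      ext
      · simp; omega
      · simp; omega
    by_cases hab : f.coeff a * g.coeff b = 0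
    · rw [hab]
      refine Finset.sum_eq_zero (fun ij hij => ?_)
      rw [this ij hij]
      exact hab
    · have hm : (a, b) ∈ Finset.antidiagonal f.isPWO_support g.isPWO_support (a + b) := by
        simp only [Finset.mem_antidiagonal, HahnSeries.mem_support]
        exact ⟨left_ne_zero_of_mul hab, right_ne_zero_of_mul hab, trivial⟩
      rw [Finset.sum_eq_single_of_mem (a, b) hm (fun ij hij hne => absurd (this ij hij) hne)]

theorem LS94_pow {x : LaurentSeries ℤ} (hlow : ∀ n : ℤ, n < -1 → x.coeff n = 0)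
    (hm1 : x.coeff (-1) = 1) (N : ℕ) :
    (∀ n : ℤ, n < -(N : ℤ) → (x ^ N).coeff n = 0) ∧ (x ^ N).coeff (-(N : ℤ)) = 1 := by
  induction N with
  | zero =>
    constructor
    · intro n hn
      rw [pow_zero, HahnSeries.coeff_one]
      simp only [Nat.cast_zero, neg_zero] at hn
      rw [if_neg hn.ne]
    · simp
  | succ k ih =>
    obtain ⟨h1, h2⟩ := ih
    have h3 := LS94_low h1 hlow
    have e : (-(k : ℤ) + -1) = -((k + 1 : ℕ) : ℤ) := by push_cast; ring
    rw [e] at h3
    rw [pow_succ]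
    refine ⟨h3.1, ?_⟩
    rw [h3.2, h2, hm1, one_mul]

theorem m_POL0 (hLIO : T_LIO) (hHLM : T_HLM) : T_POL0 := by
  intro x xz hx hxz hlow hm1 A F f hF hf hA
  obtain ⟨N, hN⟩ := LS94_bound f
  induction N generalizing F f with
  | zero =>
    have hG : MF 1 0 (fun τ => F τ - f.coeff 0) := MF94.sub hF (MF94.const (f.coeff 0))
    have hg : HL (fun τ => F τ - f.coeff 0) (f - HahnSeries.C (f.coeff 0)) :=
      hf.sub (HL.const (f.coeff 0))
    have h0 : ∀ τ : ℂ, 0 < τ.im → F τ - f.coeff 0 = 0 := by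
      refine hLIO _ _ hG hg (fun n hn => ?_)
      rw [HahnSeries.coeff_sub, HahnSeries.C_apply]
      rcases hn.lt_or_eq with h | h
      · rw [hN n (by simpa using h), HahnSeries.coeff_single_of_ne h.ne, sub_zero]
      · rw [h, HahnSeries.coeff_single_same, sub_self]
    refine ⟨Polynomial.C (f.coeff 0), fun i => ?_, fun τ hτ => ?_⟩
    · rw [Polynomial.coeff_C]
      split_ifs
      · exact hA 0 le_rfl
      · exact A.zero_mem
    · rw [Polynomial.eval_C]
      exact sub_eq_zero.mp (h0 τ hτ)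
  | succ k ih =>
    set c := f.coeff (-((k + 1 : ℕ) : ℤ)) with hc
    have hp := LS94_pow hlow hm1 (k + 1)
    have hG : MF 1 0 (fun τ => F τ - c * x τ ^ (k + 1)) :=
      MF94.sub hF (MF94.smul c (MF94.pow1 hx (k + 1)))
    have hg : HL (fun τ => F τ - c * x τ ^ (k + 1))
        (f - HahnSeries.C c * zc (xz ^ (k + 1))) := by
      refine hf.sub (HL.smul c ?_)
      rw [zc_pow]
      exact HL94.pow hHLM hxz (k + 1)
    have hco : ∀ n : ℤ, (f - HahnSeries.C c * zc (xz ^ (k + 1))).coeff n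
        = f.coeff n - (xz ^ (k + 1)).coeff n • c := by
      intro n
      rw [HahnSeries.coeff_sub, HahnSeries.C_mul_eq_smul, HahnSeries.coeff_smul, zc_coeff,
        smul_eq_mul, zsmul_eq_mul]
      ring
    have hcA : c ∈ A := hA _ (by omega)
    obtain ⟨P, hPA, hP⟩ := ih (fun τ => F τ - c * x τ ^ (k + 1))
      (f - HahnSeries.C c * zc (xz ^ (k + 1))) hG hg
      (fun n hn => by
        rw [hco]
        exact A.sub_mem (hA n hn) (A.zsmul_mem hcA _))
      (fun n hn => by
        rw [hco]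
        rcases (show n < -((k + 1 : ℕ) : ℤ) ∨ n = -((k + 1 : ℕ) : ℤ) by push_cast; omega) with h | h
        · rw [hN n h, hp.1 n h, zero_smul, sub_zero]
        · rw [h, hp.2, one_smul, ← hc, sub_self])
    refine ⟨P + Polynomial.C c * Polynomial.X ^ (k + 1), fun i => ?_, fun τ hτ => ?_⟩
    · rw [Polynomial.coeff_add, Polynomial.coeff_C_mul_X_pow]
      refine A.add_mem (hPA i) ?_
      split_ifs
      · exact hcA
      · exact A.zero_mem
    · rw [Polynomial.eval_add, ← hP τ hτ]
      simp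

end Pool.Agent.H32.S36
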