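import Pool.Agent.H94.S36.MFA

set_option autoImplicit false

open Complex Polynomial

namespace Pool.Agent.H32.S36

theorem m_POL2 (hLIO : T_LIO) (hHLM : T_HLM) : T_POL2 := by
  intro x h D xz hz dz pk A F f hF hf hA
  obtain ⟨N, hN⟩ := LS94_bound f
  induction N generalizing F f with
  | zero =>
    have hN' : ∀ n : ℤ, n < 0 → f.coeff n = 0 := fun n hn => hN n (by simpa using hn)
    have h2 := MF94.mul hF hF
    have h4 := MF94.mul h2 h2
    have h5 := MF94.mul h4 pk.md
    have hG : MF 1 0 (fun τ => F τ * F τ * (F τ * F τ) * D τ) := by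
      convert h5 using 1 <;> norm_num
    have hg : HL (fun τ => F τ * F τ * (F τ * F τ) * D τ) (f * f * (f * f) * zc dz) :=
      hHLM _ _ _ _ (hHLM _ _ _ _ (hHLM _ _ _ _ hf hf) (hHLM _ _ _ _ hf hf)) pk.ld
    have hd : ∀ n : ℤ, n < 3 → (zc dz).coeff n = 0 := fun n hn => by
      rw [zc_coeff, pk.dlow n hn, Int.cast_zero]
    have k1 := (LS94_low hN' hN').1
    have k2 := (LS94_low k1 k1).1
    have k3 := (LS94_low k2 hd).1
    have h0 : ∀ τ : ℂ, 0 < τ.im → F τ * F τ * (F τ * F τ) * D τ = 0 :=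
      hLIO _ _ hG hg (fun n hn => k3 n (by omega))
    refine ⟨0, fun i => ?_, fun τ hτ => ?_⟩
    · rw [Polynomial.coeff_zero]
      exact A.zero_mem
    · have h1 := h0 τ hτ
      have hD := pk.dne τ hτ
      have h6 : F τ = 0 := by
        rcases mul_eq_zero.1 h1 with h7 | h7
        · rcases mul_eq_zero.1 h7 with h8 | h8 <;> exact mul_self_eq_zero.1 h8
        · exact absurd h7 hD
      rw [h6]
      simp
  | succ k ih =>
    set c := f.coeff (-((k + 1 : ℕ) : ℤ)) with hc
    have hp := LS94_pow pk.xlow pk.xm1 k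
    have hq := LS94_low hp.1 pk.hlow
    have e : (-(k : ℤ) + -1) = -((k + 1 : ℕ) : ℤ) := by push_cast; ring
    rw [e, hp.2, pk.hm1, one_mul] at hq
    have hG : MF (-1) (-1) (fun τ => F τ - c * (x τ ^ k * h τ)) := by
      refine MF94.sub hF (MF94.smul c ?_)
      have := MF94.mul (MF94.pow1 pk.mx k) pk.mh
      convert this using 1 <;> norm_num
    have hg : HL (fun τ => F τ - c * (x τ ^ k * h τ))
        (f - HahnSeries.C c * zc (xz ^ k * hz)) := by
      refine hf.sub (HL.smul c ?_)
      rw [zc_mul, zc_pow]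
      exact hHLM _ _ _ _ (HL94.pow hHLM pk.lx k) pk.lh
    have hco : ∀ n : ℤ, (f - HahnSeries.C c * zc (xz ^ k * hz)).coeff n
        = f.coeff n - (xz ^ k * hz).coeff n • c := by
      intro n
      rw [HahnSeries.coeff_sub, HahnSeries.C_mul_eq_smul, HahnSeries.coeff_smul, zc_coeff,
        smul_eq_mul, zsmul_eq_mul]
      ring
    have hcA : c ∈ A := hA _ (by push_cast; omega)
    obtain ⟨P, hPA, hP⟩ := ih (fun τ => F τ - c * (x τ ^ k * h τ))
      (f - HahnSeries.C c * zc (xz ^ k * hz)) hG hg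
      (fun n hn => by
        rw [hco]
        exact A.sub_mem (hA n hn) (A.zsmul_mem hcA _))
      (fun n hn => by
        rw [hco]
        rcases (show n < -((k + 1 : ℕ) : ℤ) ∨ n = -((k + 1 : ℕ) : ℤ) by push_cast; omega) with h | h
        · rw [hN n h, hq.1 n h, zero_smul, sub_zero]
        · rw [h, hq.2, one_smul, ← hc, sub_self])
    refine ⟨P + Polynomial.C c * Polynomial.X ^ k, fun i => ?_, fun τ hτ => ?_⟩
    · rw [Polynomial.coeff_add, Polynomial.coeff_C_mul_X_pow]
      refine A.add_mem (hPA i) ?_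
      split_ifs
      · exact hcA
      · exact A.zero_mem
    · have h1 := hP τ hτ
      rw [Polynomial.eval_add, add_mul, ← h1]
      simp
      ring

end Pool.Agent.H32.S36
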